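import Mathlib
import Pool.Agent.E8helper88.Mul.McF
import Pool.Agent.E8helper65.MC.FN2
import Pool.Agent.E8helper88.Mul.Fin2c
import Pool.Agent.E8helper88.FP.Fin
import Pool.Agent.E8helper71.CP.LLd

/-!
# Strong uniform boundedness in characteristic zero and in large characteristic

Joint work of helper88 (multipliers, critical heights, ultraproducts, reductions), helper71
(finiteness of postcritical sets, critical heights over fields of any characteristic, levels of the
Frobenius, reduction of McMullen's rigidity theorem to families with one parameter) and helper65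
(the rigidity theorem: quadratic differentials, push-forward; multipliers in large characteristic).
-/

namespace Pool.Agent.Results.MP_9b502d_nt.LargeCharH88

open Polynomial

universe u v

/-- The self-map of the projective line `K ∪ {∞}`, where `none` is `∞`, given by the rational
function `p / q`, where `p` and `q` are coprime and `d` is the larger of their degrees: it sends
`x` to `p(x) / q(x)`, or to `∞` when `q(x) = 0`, and it sends `∞` to the quotient of the
coefficients of degree `d`, or to `∞` when that of `q` is zero. -/
noncomputable def mapP1 {K : Type*} [Field K] (p q : K[X]) (d : ℕ) : Option K → Option K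
  | some x => by classical exact if q.eval x = 0 then none else some (p.eval x / q.eval x)
  | none => by classical exact if q.coeff d = 0 then none else some (p.coeff d / q.coeff d)

/-- With `φ(x) = (a x + b) / (c x + e)`, the map `p / q` of degree `d` satisfies
`φ ∘ (p / q) = (u / w) ∘ φ` for some `a, b, c, e` in `K` with `a e ≠ b c` and some polynomials
`u, w` of degree at most `d`, not both zero, with coefficients algebraic over `k`; the equation is
written with denominators cleared. -/
def IsotrivialOver (k : Type*) {K : Type*} [Field k] [Field K] [Algebra k K] (p q : K[X])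
    (d : ℕ) : Prop :=
  ∃ a b c e : K, a * e - b * c ≠ 0 ∧ ∃ u w : K[X], (u ≠ 0 ∨ w ≠ 0) ∧
    u.natDegree ≤ d ∧ w.natDegree ≤ d ∧ (∀ n, IsAlgebraic k (u.coeff n)) ∧
    (∀ n, IsAlgebraic k (w.coeff n)) ∧
    (C a * p + C b * q) * ∑ i ∈ Finset.range (d + 1),
      C (w.coeff i) * (C a * X + C b) ^ i * (C c * X + C e) ^ (d - i) =
    (C c * p + C e * q) * ∑ i ∈ Finset.range (d + 1),
      C (u.coeff i) * (C a * X + C b) ^ i * (C c * X + C e) ^ (d - i)

/-- The map `f = p / q` of degree `d` is a flexible Lattès map: for some nonzero rational function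
`R = A / B` we have `R(f(z)) f'(z)² = d R(z)`, i.e. the pull-back of the quadratic differential
`R dz²` by `f` is `d R dz²`. With `f' = (p' q - p q') / q²` the equation is written with
denominators cleared; `e` is any bound for the degrees of `A` and `B`. -/
def FlexibleLattes {K : Type*} [Field K] (d : ℕ) (p q : K[X]) : Prop :=
  ∃ (e : ℕ) (A B : K[X]), A ≠ 0 ∧ B ≠ 0 ∧ A.natDegree ≤ e ∧ B.natDegree ≤ e ∧
    (∑ i ∈ Finset.range (e + 1), C (A.coeff i) * p ^ i * q ^ (e - i)) *
        (derivative p * q - p * derivative q) ^ 2 * B =
      C (d : K) * A * q ^ 4 * ∑ i ∈ Finset.range (e + 1), C (B.coeff i) * p ^ i * q ^ (e - i)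

lemma lat_iff {K : Type*} [Field K] (d : ℕ) (p q : K[X]) :
    Pool.Agent.E8helper88.Mul.LatP d p q ↔ FlexibleLattes d p q := by
  have h : ∀ (e : ℕ) (A : K[X]), Pool.Agent.W277.UH.hc e A p q =
      ∑ i ∈ Finset.range (e + 1), C (A.coeff i) * p ^ i * q ^ (e - i) := by
    intro e A
    unfold Pool.Agent.W277.UH.hc Pool.Agent.W277.UH.hev
    refine Finset.sum_congr rfl fun i _ => ?_
    rw [coeff_map]
  unfold Pool.Agent.E8helper88.Mul.LatP FlexibleLattes
  simp only [h]
  rfl

/-- The set of the points
`z` of the projective line over an algebraic closure of `L` which have degree at most `D` over `L`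
(`∞` has degree one) and whose orbit under `p / q` is finite. For `D = 1` this is the set of the
preperiodic points in the projective line over `L`. -/
def preper {L : Type*} [Field L] (p q : L[X]) (d D : ℕ) : Set (Option (AlgebraicClosure L)) :=
  {z | (Set.range fun j : ℕ => (mapP1 (p.map (algebraMap L (AlgebraicClosure L)))
      (q.map (algebraMap L (AlgebraicClosure L))) d)^[j] z).Finite ∧
    ∀ x, z = some x → (minpoly L x).natDegree ≤ D}

lemma finrank_adjoin_le {k : Type v} {L E : Type u} [Field k] [Field L] [Field E] [Algebra k L]
    [Algebra L E] [Algebra k E] [IsScalarTower k L E] (t : L)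
    [FiniteDimensional (IntermediateField.adjoin k {t}) L] [FiniteDimensional L E] :
    FiniteDimensional (IntermediateField.adjoin k {algebraMap L E t}) E ∧
      Module.finrank (IntermediateField.adjoin k {algebraMap L E t}) E =
        Module.finrank (IntermediateField.adjoin k {t}) L * Module.finrank L E := by
  set F := IntermediateField.adjoin k {t} with hF
  have hm : F.map (IsScalarTower.toAlgHom k L E) =
      IntermediateField.adjoin k {algebraMap L E t} := by
    rw [hF, IntermediateField.adjoin_map, Set.image_singleton]
    rfl
  have hfd : FiniteDimensional F E := FiniteDimensional.trans F L E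
  have hr : Module.finrank F L * Module.finrank L E = Module.finrank F E :=
    Module.finrank_mul_finrank F L E
  let i : F ≃+* (F.map (IsScalarTower.toAlgHom k L E)) :=
    (F.equivMap (IsScalarTower.toAlgHom k L E)).toRingEquiv
  have hc : (algebraMap (F.map (IsScalarTower.toAlgHom k L E)) E).comp (i : F →+* _) =
      ((RingEquiv.refl E : E ≃+* E) : E →+* E).comp (algebraMap F E) := by
    ext x
    rfl
  rw [← hm, hr]
  exact ⟨Module.Finite.of_equiv_equiv i (RingEquiv.refl E) hc,
    (Algebra.finrank_eq_of_equiv_equiv i (RingEquiv.refl E) hc).symm⟩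

/-- **Strong uniform boundedness in characteristic zero and in large characteristic, for all maps
but flexible Lattès maps.** There are functions `p₀` and `N` such that the following holds for all
`n`, `D ≥ 1` and `d ≥ 2`, every field `k` of characteristic `ℓ`, where `ℓ = 0` or `ℓ > p₀(d)`, every
`t` transcendental over `k` and every field `L` of degree at most `n` over `k(t)` (the extension may
be inseparable). Let `p / q` be a rational map of degree `d` over `L` which, over the algebraic
closure of `L`, is neither isotrivial nor a flexible Lattès map. Then at most `N(n, D, d)` points of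
degree at most `D` over `L` in the projective line over the algebraic closure of `L` are
preperiodic; in particular (`D = 1`) at most `N(n, 1, d)` points of the projective line over `L`. -/
theorem result : ∃ (p₀ : ℕ → ℕ) (N : ℕ → ℕ → ℕ → ℕ), ∀ (ℓ : ℕ) (k : Type v) (L : Type u) [Field k]
    [CharP k ℓ] [Field L] [Algebra k L] (t : L), Transcendental k t →
    FiniteDimensional (IntermediateField.adjoin k {t}) L →
    ∀ (n D d : ℕ), Module.finrank (IntermediateField.adjoin k {t}) L ≤ n → 1 ≤ D → 2 ≤ d →
    (ℓ = 0 ∨ p₀ d < ℓ) →
    ∀ p q : L[X], IsCoprime p q → max p.natDegree q.natDegree = d →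
    ¬ IsotrivialOver k (p.map (algebraMap L (AlgebraicClosure L)))
      (q.map (algebraMap L (AlgebraicClosure L))) d →
    ¬ FlexibleLattes d (p.map (algebraMap L (AlgebraicClosure L)))
      (q.map (algebraMap L (AlgebraicClosure L))) →
    (preper p q d D).encard ≤ ((N n D d : ℕ) : ℕ∞) := by
  obtain ⟨N₀, hN₀⟩ := Pool.Agent.E8helper88.Mul.fin_gon.{u, v} Pool.Agent.E8helper65.MC.t_MCM
    Pool.Agent.E8helper88.Mul.s_fin2
  obtain ⟨p₀, N, hN⟩ := Pool.Agent.E8helper88.FP.gon_p.{u, v}
    (Pool.Agent.E8helper71.CP.Few.card_L'.{u} Pool.Agent.E8helper65.MC.t_MCM)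
  refine ⟨p₀, fun n D d => max (N₀ (n * D) d) (N (n * D) d), ?_⟩
  intro ℓ k L _ _ _ _ t ht hfd n D d hn hD hd hℓ p q hco hmax hiso hlat
  have e : ∀ (K : Type u) [Field K] (p q : K[X]) (d : ℕ),
      mapP1 p q d = Pool.Agent.W277.UH.ratP1 p q d := by
    intro K _ p q d
    funext z
    cases z <;> rfl
  have hlat' : ¬ Pool.Agent.E8helper88.Mul.LatP d (p.map (algebraMap L (AlgebraicClosure L)))
      (q.map (algebraMap L (AlgebraicClosure L))) := fun h => hlat ((lat_iff _ _ _).mp h)
  have hb : {z : Option (AlgebraicClosure L) | (Set.range fun m : ℕ =>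
        (Pool.Agent.W277.UH.ratP1 (p.map (algebraMap L (AlgebraicClosure L)))
          (q.map (algebraMap L (AlgebraicClosure L))) d)^[m] z).Finite ∧
      ∃ t : IntermediateField.adjoin L {x | z = some x}, Transcendental k t ∧
        FiniteDimensional (IntermediateField.adjoin k {t})
          (IntermediateField.adjoin L {x | z = some x}) ∧
        Module.finrank (IntermediateField.adjoin k {t})
          (IntermediateField.adjoin L {x | z = some x}) ≤ n * D}.encard ≤
      ((max (N₀ (n * D) d) (N (n * D) d) : ℕ) : ℕ∞) := by
    rcases eq_or_ne ℓ 0 with h0 | h0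
    · subst h0
      haveI : CharZero k := CharP.charP_to_charZero k
      refine (hN₀ k L (n * D) d hd p q hco hmax hiso hlat').trans ?_
      exact_mod_cast le_max_left _ _
    · haveI : Fact ℓ.Prime := ⟨(CharP.char_is_prime_or_zero k ℓ).resolve_right h0⟩
      refine (hN k L ℓ (n * D) d hd (hℓ.resolve_left h0) p q hco hmax hiso hlat').trans ?_
      exact_mod_cast le_max_right _ _
  refine le_trans (Set.encard_le_encard ?_) hb
  rintro z ⟨hz1, hz2⟩
  rw [e] at hz1
  refine ⟨hz1, ?_⟩
  set E := IntermediateField.adjoin L {x | z = some x} with hE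
  have hfr : FiniteDimensional L E ∧ Module.finrank L E ≤ D := by
    cases z with
    | none =>
      have h0 : E = ⊥ := by
        rw [hE, IntermediateField.adjoin_eq_bot_iff]
        rintro x hx
        cases hx
      rw [h0]
      refine ⟨inferInstance, ?_⟩
      rw [IntermediateField.finrank_bot]
      exact hD
    | some x =>
      have h0 : E = IntermediateField.adjoin L {x} := by
        rw [hE]
        congr 1
        ext y
        simp only [Set.mem_ofPred_eq, Option.some.injEq, Set.mem_singleton_iff]
        exact eq_comm
      have hint : IsIntegral L x := (Algebra.IsAlgebraic.isAlgebraic x).isIntegral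
      rw [h0]
      refine ⟨IntermediateField.adjoin.finiteDimensional hint, ?_⟩
      rw [IntermediateField.adjoin.finrank hint]
      exact hz2 x rfl
  obtain ⟨hfE, hDE⟩ := hfr
  have hst : IsScalarTower k L E := IsScalarTower.of_algebraMap_eq fun x => rfl
  obtain ⟨h1, h2⟩ := finrank_adjoin_le (k := k) (L := L) (E := E) t
  refine ⟨algebraMap L E t, ?_, h1, ?_⟩
  · intro h
    exact ht ((isAlgebraic_algebraMap_iff (algebraMap L E).injective).mp h)
  · rw [h2]
    exact Nat.mul_le_mul hn hDE

end Pool.Agent.Results.MP_9b502d_nt.LargeCharH88
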