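import Mathlib
import Pool.Agent.E8helper65.HS.Last
import Pool.Agent.E8helper87.HS.Deg

/-!
# Rational maps with many preperiodic points over a function field have small height

Joint work of helper65 and helper87 (the norm form of the degree of a function,
`Pool.Agent.E8helper87.HS.Deg`).
-/

namespace Pool.Agent.Results.MP_9b502d_nt.SmallHeightH65

open Polynomial

universe u v

/-- The self-map of the projective line `K ∪ {∞}`, where `none` is `∞`, given by the rational
function `p / q`, where `p` and `q` are coprime and `d` is the larger of their degrees: it sends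
`x` to `p(x) / q(x)`, or to `∞` when `q(x) = 0`, and it sends `∞` to the quotient of the
coefficients of degree `d`, or to `∞` when that of `q` is zero. -/
noncomputable def mapP1 {K : Type*} [Field K] (p q : K[X]) (d : ℕ) : Option K → Option K
  | some x => by classical exact if q.eval x = 0 then none else some (p.eval x / q.eval x)
  | none => by classical exact if q.coeff d = 0 then none else some (p.coeff d / q.coeff d)

/-- The preperiodic points of `p / q` in the projective line over `K`. -/
def preper {K : Type*} [Field K] (p q : K[X]) (d : ℕ) : Set (Option K) :=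
  {z | (Set.range fun m : ℕ => (mapP1 p q d)^[m] z).Finite}

/-- The maps `p / q` and `u / w` (all polynomials of degree at most `d`) are conjugate over `F`:
with `φ(x) = (a x + b) / (c x + e)` we have `φ ∘ (p / q) = (u / w) ∘ φ` for some `a, b, c, e` in `F`
with `a e ≠ b c`; the equation is written with denominators cleared. -/
def Conjugate {F : Type*} [Field F] (p q u w : F[X]) (d : ℕ) : Prop :=
  ∃ a b c e : F, a * e - b * c ≠ 0 ∧
    (C a * p + C b * q) * ∑ i ∈ Finset.range (d + 1),
      C (w.coeff i) * (C a * X + C b) ^ i * (C c * X + C e) ^ (d - i) =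
    (C c * p + C e * q) * ∑ i ∈ Finset.range (d + 1),
      C (u.coeff i) * (C a * X + C b) ^ i * (C c * X + C e) ^ (d - i)

/-- The map `p / q` of degree `d` over `K` is isotrivial: over an algebraic closure of `K` it is
conjugate to a map `u / w`, where `u, w` have degree at most `d`, are not both zero and have
coefficients algebraic over `k`. -/
def Isotrivial (k : Type*) {K : Type*} [Field k] [Field K] [Algebra k K] (p q : K[X])
    (d : ℕ) : Prop :=
  ∃ u w : (AlgebraicClosure K)[X], (u ≠ 0 ∨ w ≠ 0) ∧ u.natDegree ≤ d ∧ w.natDegree ≤ d ∧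
    (∀ n, IsAlgebraic k (u.coeff n)) ∧ (∀ n, IsAlgebraic k (w.coeff n)) ∧
    Conjugate (p.map (algebraMap K (AlgebraicClosure K)))
      (q.map (algebraMap K (AlgebraicClosure K))) u w d

/-- Homogeneous coordinates of a point of the projective line `K ∪ {∞}`. -/
def coords {K : Type*} [Field K] : Option K → K × K
  | some x => (x, 1)
  | none => (1, 0)

/-- The determinant of two vectors. -/
def det2 {K : Type*} [Field K] (P R : K × K) : K := P.1 * R.2 - P.2 * R.1

/-- The cross ratio of four points of the projective line: for distinct `z0, z1, z2` it is the value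
at `z` of the Möbius transformation which sends `z0, z1, z2` to `0, 1, ∞`; e.g.
`(z - z0) (z1 - z2) / ((z - z2) (z1 - z0))` for points of `K`. -/
noncomputable def crossRatio {K : Type*} [Field K] (z0 z1 z2 z : Option K) : K :=
  (det2 (coords z) (coords z0) * det2 (coords z1) (coords z2)) /
    (det2 (coords z) (coords z2) * det2 (coords z1) (coords z0))

/-- The height of an element `a` of a function field `K` of one variable over `k`: the degree of
`a` as a rational function on the curve, `[K : k(a)]`, and `0` if `a` is algebraic over `k`. -/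
noncomputable def height (k : Type*) {K : Type*} [Field k] [Field K] [Algebra k K] (a : K) : ℕ := by
  classical exact if IsAlgebraic k a then 0 else
    Module.finrank (IntermediateField.adjoin k {a}) K

/-- **Rational maps with many preperiodic points have small height.** There is a function `N₀`
such that the following holds for all `d ≥ 2`, every field `k` of characteristic zero, every finite
extension `K` of `k(t)` (of any degree) and every basis `b` of `K` over `k(t)` whose elements are
integral over `k[t]`; let `δ` in `k[t]` be its discriminant. For every rational map `f = p / q` of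
degree `d` over `K` which is not isotrivial, either `f` has at most `N₀(d)` preperiodic points in
the projective line over `K`, or

* the cross ratios of the preperiodic points in the projective line over `K` have height at
  most `768 d (d + 1) deg δ`, and
* `f` is conjugate over `K` to a map `u / w` all of whose coefficients have height at most
  `1536 d (d + 1)² (2 d + 1) (2 d + 1)! deg δ`. -/
theorem result : ∃ N₀ : ℕ → ℕ, ∀ d : ℕ, 2 ≤ d →
    ∀ (k : Type v) (K : Type u) [Field k] [CharZero k] [Field K] [Algebra k K]
      [Algebra (RatFunc k) K] [IsScalarTower k (RatFunc k) K] [FiniteDimensional (RatFunc k) K]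
      (n : ℕ) (b : Module.Basis (Fin n) (RatFunc k) K),
      (∀ i, ((algebraMap (RatFunc k) K).comp
        (algebraMap k[X] (RatFunc k))).IsIntegralElem (b i)) →
    ∃ δ : k[X], algebraMap k[X] (RatFunc k) δ = Algebra.discr (RatFunc k) b ∧
    ∀ p q : K[X], IsCoprime p q → max p.natDegree q.natDegree = d → ¬ Isotrivial k p q d →
      (preper p q d).encard ≤ (N₀ d : ℕ∞) ∨
      ((∀ z0 ∈ preper p q d, ∀ z1 ∈ preper p q d, ∀ z2 ∈ preper p q d, ∀ z ∈ preper p q d,
          z ≠ z0 → z ≠ z2 → z1 ≠ z0 → z1 ≠ z2 →
          height k (crossRatio z0 z1 z2 z) ≤ 768 * d * (d + 1) * δ.natDegree) ∧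
        ∃ u w : K[X], IsCoprime u w ∧ max u.natDegree w.natDegree = d ∧ Conjugate p q u w d ∧
          ∀ i, height k (u.coeff i) ≤
              1536 * d * (d + 1) ^ 2 * (2 * d + 1) * (2 * d + 1).factorial * δ.natDegree ∧
            height k (w.coeff i) ≤
              1536 * d * (d + 1) ^ 2 * (2 * d + 1) * (2 * d + 1).factorial * δ.natDegree) := by
  classical
  have h1 : ∀ d : ℕ, ∃ N₁ : ℕ, 2 ≤ d →
      ∀ (k : Type v) (K : Type u) [Field k] [CharZero k] [Field K] [Algebra k K]
      [Algebra (RatFunc k) K] [IsScalarTower k (RatFunc k) K] [FiniteDimensional (RatFunc k) K]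
      (n : ℕ) (b : Module.Basis (Fin n) (RatFunc k) K),
      (∀ i, ((algebraMap (RatFunc k) K).comp
        (algebraMap (Polynomial k) (RatFunc k))).IsIntegralElem (b i)) →
      ∃ δ : Polynomial k, algebraMap (Polynomial k) (RatFunc k) δ = Algebra.discr (RatFunc k) b ∧
      ∀ p q : Polynomial K, IsCoprime p q → max p.natDegree q.natDegree = d →
      ¬ Pool.Agent.W277.UH.ConjConst (algebraicClosure k K) p q d →
      (N₁ : ℕ∞) < (Pool.Agent.E8helper65.HS.Pre p q d).encard →
      (∀ z0 ∈ Pool.Agent.E8helper65.HS.Pre p q d, ∀ z1 ∈ Pool.Agent.E8helper65.HS.Pre p q d,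
        ∀ z2 ∈ Pool.Agent.E8helper65.HS.Pre p q d, ∀ z ∈ Pool.Agent.E8helper65.HS.Pre p q d,
        z ≠ z0 → z1 ≠ z2 → z ≠ z2 → z1 ≠ z0 →
        Pool.Agent.E8helper65.HS.hgt k (Pool.Agent.E8helper65.HS.xr z0 z1 z2 z) ≤
          768 * d * (d + 1) * δ.natDegree) ∧
      ∃ a b c e : K, a * e - b * c ≠ 0 ∧ ∃ u w : K[X], IsCoprime u w ∧
        max u.natDegree w.natDegree = d ∧
        (∀ n, Pool.Agent.E8helper65.HS.hgt k (u.coeff n) ≤
          1536 * d * (d + 1) ^ 2 * (2 * d + 1) * (2 * d + 1).factorial * δ.natDegree) ∧
        (∀ n, Pool.Agent.E8helper65.HS.hgt k (w.coeff n) ≤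
          1536 * d * (d + 1) ^ 2 * (2 * d + 1) * (2 * d + 1).factorial * δ.natDegree) ∧
        (C a * p + C b * q) * Pool.Agent.W277.UH.hc d w (C a * X + C b) (C c * X + C e) =
          (C c * p + C e * q) * Pool.Agent.W277.UH.hc d u (C a * X + C b) (C c * X + C e) := by
    intro d
    by_cases hd : 2 ≤ d
    · obtain ⟨N, hN⟩ := Pool.Agent.E8helper65.HS.final.{u, v} Pool.Agent.E8helper87.HS.t_DEG d hd
      exact ⟨N, fun _ => hN⟩
    · exact ⟨0, fun h => absurd h hd⟩
  choose N₀ hN₀ using h1
  refine ⟨N₀, ?_⟩
  intro d hd k K _ _ _ _ _ _ _ n b hb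
  obtain ⟨δ, hδ, hmain⟩ := hN₀ d hd k K n b hb
  refine ⟨δ, hδ, ?_⟩
  intro p q hco hmax hiso
  have hmap : mapP1 p q d = Pool.Agent.W277.UH.ratP1 p q d := by
    funext z
    cases z <;> rfl
  have hpre : preper p q d = Pool.Agent.E8helper65.HS.Pre p q d := by
    unfold preper Pool.Agent.E8helper65.HS.Pre
    rw [hmap]
  have hxr : ∀ z0 z1 z2 z : Option K, crossRatio z0 z1 z2 z =
      Pool.Agent.E8helper65.HS.xr z0 z1 z2 z := by
    intro z0 z1 z2 z
    have hc : ∀ z : Option K, coords z = Pool.Agent.E8helper65.HS.pt z := by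
      intro z
      cases z <;> rfl
    unfold crossRatio Pool.Agent.E8helper65.HS.xr
    rw [hc, hc, hc, hc]
    rfl
  have hht : ∀ a : K, height k a = Pool.Agent.E8helper65.HS.hgt k a := fun a => rfl
  have hsum : ∀ g P R : K[X], Pool.Agent.W277.UH.hc d g P R =
      ∑ i ∈ Finset.range (d + 1), C (g.coeff i) * P ^ i * R ^ (d - i) := by
    intro g P R
    unfold Pool.Agent.W277.UH.hc Pool.Agent.W277.UH.hev
    exact Finset.sum_congr rfl fun i _ => by rw [coeff_map]
  by_cases hN : (preper p q d).encard ≤ (N₀ d : ℕ∞)
  · exact Or.inl hN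
  right
  rw [not_le, hpre] at hN
  obtain ⟨hx, a, b', c, e, hdet, u, w, huw, humax, hu, hw, hid⟩ := hmain p q hco hmax (by
    rintro ⟨a, b, c, e, hdet, u, w, hne, hu, hw, hid⟩
    apply hiso
    have hinj := (algebraMap (algebraicClosure k K) K).injective
    set ψ := algebraMap K (AlgebraicClosure K) with hψ
    have hψi := ψ.injective
    set u' : K[X] := u.map (algebraMap _ K) with hu'
    set w' : K[X] := w.map (algebraMap _ K) with hw'
    refine ⟨u'.map ψ, w'.map ψ, ?_, ?_, ?_, fun n => ?_, fun n => ?_, ψ a, ψ b, ψ c, ψ e, ?_, ?_⟩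
    · rcases hne with h | h
      · exact Or.inl ((Polynomial.map_ne_zero_iff hψi).mpr
          ((Polynomial.map_ne_zero_iff hinj).mpr h))
      · exact Or.inr ((Polynomial.map_ne_zero_iff hψi).mpr
          ((Polynomial.map_ne_zero_iff hinj).mpr h))
    · exact natDegree_map_le.trans (natDegree_map_le.trans hu)
    · exact natDegree_map_le.trans (natDegree_map_le.trans hw)
    · rw [coeff_map, coeff_map]
      exact (mem_algebraicClosure_iff.mp (u.coeff n).2).algebraMap
    · rw [coeff_map, coeff_map]
      exact (mem_algebraicClosure_iff.mp (w.coeff n).2).algebraMap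
    · rw [← map_mul, ← map_mul, ← map_sub]
      exact (map_ne_zero ψ).mpr hdet
    · rw [hsum, hsum] at hid
      have h1 := congrArg (fun g => g.map ψ) hid
      simp only [Polynomial.map_mul, Polynomial.map_add, Polynomial.map_sum, Polynomial.map_pow,
        map_C, map_X] at h1
      simp only [coeff_map] at h1 ⊢
      exact h1) hN
  refine ⟨?_, u, w, huw, humax, ⟨a, b', c, e, hdet, ?_⟩, fun i => ⟨?_, ?_⟩⟩
  · intro z0 g0 z1 g1 z2 g2 z g n0 n2 n10 n12
    rw [hpre] at g0 g1 g2 g
    rw [hht, hxr]
    exact hx z0 g0 z1 g1 z2 g2 z g n0 n12 n2 n10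
  · rw [hsum, hsum] at hid
    exact hid
  · rw [hht]
    exact hu i
  · rw [hht]
    exact hw i

end Pool.Agent.Results.MP_9b502d_nt.SmallHeightH65
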